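import Pool.Agent.H8.TD.Targets

set_option autoImplicit false

/-!
# Common zeros of two relatively prime polynomials
-/

open MvPolynomial
open Pool.Agent.H12.ZD (pmap v O Res DenseOrbit NoInv)
open Pool.Agent.H18.HIT
open Pool.Agent.H8.ZA (HFam Const NA sz)
open Pool.Agent.H8.TD

namespace Pool.Agent.H51.TD

/-- relatively prime polynomials over a factorial ring have no common zero which is transcendental
over the coefficients -/
theorem gauss_core {A Ω : Type} [CommRing A] [IsDomain A] [UniqueFactorizationMonoid A] [Field Ω]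
    (j : A →+* Ω) (hj : Function.Injective j) (ω : Ω) (f g : Polynomial A) (hf0 : f ≠ 0)
    (hrel : IsRelPrime f g) (hf : f.eval₂ j ω = 0) (hg : g.eval₂ j ω = 0) : False := by
  have hP : (RingHom.ker (Polynomial.eval₂RingHom j ω)).IsPrime := RingHom.ker_isPrime _
  obtain ⟨p, hp, hpf, hpω⟩ : ∃ p, Irreducible p ∧ p ∣ f ∧ p.eval₂ j ω = 0 := by
    obtain ⟨s, hs1, hs2⟩ := UniqueFactorizationMonoid.exists_prime_factors f hf0
    have h1 : s.prod ∈ RingHom.ker (Polynomial.eval₂RingHom j ω) := by
      obtain ⟨u, hu⟩ := hs2.symm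
      rw [← hu]
      apply Ideal.mul_mem_right
      rw [RingHom.mem_ker]
      exact hf
    obtain ⟨p, hps, hpP⟩ := (hP.multiset_prod_mem_iff_exists_mem s).1 h1
    refine ⟨p, (hs1 p hps).irreducible, (Multiset.dvd_prod hps).trans hs2.dvd, ?_⟩
    rw [RingHom.mem_ker] at hpP
    exact hpP
  have hdeg : p.natDegree ≠ 0 := by
    intro h
    rw [Polynomial.eq_C_of_natDegree_eq_zero h, Polynomial.eval₂_C] at hpω
    have h2 : p.coeff 0 = 0 := hj (by rw [hpω, map_zero])
    apply hp.ne_zero
    rw [Polynomial.eq_C_of_natDegree_eq_zero h, h2, map_zero]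
  have hprim : p.IsPrimitive := hp.isPrimitive hdeg
  have hF : Irreducible (p.map (algebraMap A (FractionRing A))) :=
    hprim.irreducible_iff_irreducible_map_fraction_map.1 hp
  set j' : FractionRing A →+* Ω := IsFractionRing.lift hj with hj'
  have hev : ∀ q : Polynomial A,
      (q.map (algebraMap A (FractionRing A))).eval₂ j' ω = q.eval₂ j ω := by
    intro q
    rw [Polynomial.eval₂_map]
    congr 1
    ext a
    simp [hj', IsFractionRing.lift_algebraMap]
  have hdvd : p.map (algebraMap A (FractionRing A)) ∣ g.map (algebraMap A (FractionRing A)) := by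
    by_contra hnd
    obtain ⟨a, b, hab⟩ := (hF.coprime_iff_not_dvd).2 hnd
    have h3 := congrArg (Polynomial.eval₂ j' ω) hab
    rw [Polynomial.eval₂_add, Polynomial.eval₂_mul, Polynomial.eval₂_mul, hev, hev, hpω, hg,
      Polynomial.eval₂_one] at h3
    simp at h3
  have hpg : p ∣ g := hprim.dvd_of_fraction_map_dvd_fraction_map hdvd
  exact hp.not_isUnit (hrel hpf hpg)

theorem relprime_equiv {R R' : Type} [CommRing R] [CommRing R'] (e : R ≃+* R') {a b : R}
    (h : IsRelPrime a b) : IsRelPrime (e a) (e b) := by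
  intro d hda hdb
  have h1 : e.symm d ∣ a := by
    have := map_dvd e.symm hda
    rwa [RingEquiv.symm_apply_apply] at this
  have h2 : e.symm d ∣ b := by
    have := map_dvd e.symm hdb
    rwa [RingEquiv.symm_apply_apply] at this
  have h3 : IsUnit (e (e.symm d)) := (h h1 h2).map e
  rwa [RingEquiv.apply_symm_apply] at h3

/-- the last three coordinates of a common zero are algebraically dependent -/
theorem core0 {k Ω : Type} [Field k] [Field Ω] [Algebra k Ω] (S S' : Po 4 k) (ξ : Fin 4 → Ω)
    (hS : S ≠ 0) (hrel : IsRelPrime S S') (h1 : aeval ξ S = 0) (h2 : aeval ξ S' = 0)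
    (hind : AlgebraicIndependent k (fun i : Fin 3 => ξ i.succ)) : False := by
  set j : MvPolynomial (Fin 3) k →+* Ω :=
    (aeval (fun i : Fin 3 => ξ i.succ) : MvPolynomial (Fin 3) k →ₐ[k] Ω).toRingHom with hjdef
  have hj : Function.Injective j := hind
  have hev : ∀ q : Po 4 k, (finSuccEquiv k 3 q).eval₂ j (ξ 0) = aeval ξ q := by
    intro q
    have h : (Polynomial.eval₂RingHom j (ξ 0)).comp (finSuccEquiv k 3).toRingEquiv.toRingHom =
        (aeval ξ : Po 4 k →ₐ[k] Ω).toRingHom := by
      apply MvPolynomial.ringHom_ext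
      · intro a
        have : finSuccEquiv k 3 (C a) = Polynomial.C (C a) := by
          simp [finSuccEquiv_apply]
        simp only [RingHom.comp_apply]
        show (finSuccEquiv k 3 (C a)).eval₂ j (ξ 0) = aeval ξ (C a)
        rw [this, Polynomial.eval₂_C, hjdef]
        simp
      · intro i
        show (finSuccEquiv k 3 (X i)).eval₂ j (ξ 0) = aeval ξ (X i)
        refine Fin.cases ?_ ?_ i
        · rw [finSuccEquiv_X_zero]
          simp
        · intro i
          rw [finSuccEquiv_X_succ, Polynomial.eval₂_C, hjdef]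
          simp
    exact congrArg (fun φ : Po 4 k →+* Ω => φ q) h
  refine gauss_core j hj (ξ 0) (finSuccEquiv k 3 S) (finSuccEquiv k 3 S') ?_ ?_ ?_ ?_
  · intro h
    exact hS ((finSuccEquiv k 3).injective (by rw [h, map_zero]))
  · exact relprime_equiv (finSuccEquiv k 3).toRingEquiv hrel
  · rw [hev, h1]
  · rw [hev, h2]

/-- three coordinates of a common zero are algebraically dependent -/
theorem core {k Ω : Type} [Field k] [Field Ω] [Algebra k Ω] (S S' : Po 4 k) (ξ : Fin 4 → Ω)
    (hS : S ≠ 0) (hrel : IsRelPrime S S') (h1 : aeval ξ S = 0) (h2 : aeval ξ S' = 0)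
    (σ : Fin 3 → Fin 4) (hσ : Function.Injective σ)
    (hind : AlgebraicIndependent k (fun i : Fin 3 => ξ (σ i))) : False := by
  obtain ⟨c, hc⟩ : ∃ c, c ∉ Set.range σ := by
    by_contra h
    push Not at h
    have h3 : Function.Surjective σ := h
    have := Fintype.card_le_of_surjective σ h3
    simp at this
  have hπi : Function.Injective (Fin.cons c σ : Fin 4 → Fin 4) :=
    Fin.cons_injective_iff.2 ⟨hc, hσ⟩
  have hπb : Function.Bijective (Fin.cons c σ : Fin 4 → Fin 4) :=
    Finite.injective_iff_bijective.1 hπi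
  set π : Fin 4 ≃ Fin 4 := Equiv.ofBijective _ hπb with hπ
  have hπs : ∀ i : Fin 3, π i.succ = σ i := by
    intro i
    simp [hπ]
  have hev : ∀ q : Po 4 k, aeval (fun i => ξ (π i)) (renameEquiv k π.symm q) = aeval ξ q := by
    intro q
    rw [renameEquiv_apply, aeval_rename]
    congr 1
    congr 1
    funext i
    simp
  refine core0 (renameEquiv k π.symm S) (renameEquiv k π.symm S') (fun i => ξ (π i)) ?_ ?_ ?_ ?_ ?_
  · intro h
    exact hS ((renameEquiv k π.symm).injective (by rw [h, map_zero]))
  · exact relprime_equiv (renameEquiv k π.symm).toRingEquiv hrel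
  · rw [hev, h1]
  · rw [hev, h2]
  · have : (fun i : Fin 3 => ξ (π i.succ)) = fun i : Fin 3 => ξ (σ i) := by
      funext i
      rw [hπs]
    rw [this]
    exact hind

theorem alg_adjoin {k Ω : Type} [Field k] [Field Ω] [Algebra k Ω] {n : ℕ} (ξ : Fin n → Ω)
    (η : Fin n → IntermediateField.adjoin k (Set.range ξ)) (hη : ∀ i, (η i : Ω) = ξ i) :
    Algebra.IsAlgebraic (Algebra.adjoin k (Set.range η))
      (IntermediateField.adjoin k (Set.range ξ)) := by
  constructor
  intro a
  obtain ⟨r, s, hrs⟩ := (IntermediateField.mem_adjoin_range_iff k ξ (a : Ω)).1 a.2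
  have hval : ∀ p : MvPolynomial (Fin n) k, ((aeval η p :
      IntermediateField.adjoin k (Set.range ξ)) : Ω) = aeval ξ p := by
    intro p
    have h := MvPolynomial.comp_aeval_apply (f := η)
      (IntermediateField.val (IntermediateField.adjoin k (Set.range ξ))) p
    have h2 : (fun i => (IntermediateField.val (IntermediateField.adjoin k (Set.range ξ))) (η i)) =
        ξ := by
      funext i
      exact hη i
    rw [h2] at h
    exact h
  have ha : a = aeval η r / aeval η s := by
    apply Subtype.ext
    rw [hrs]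
    push_cast
    rw [hval, hval]
  have hmem : ∀ p : MvPolynomial (Fin n) k, aeval η p ∈ Algebra.adjoin k (Set.range η) := by
    intro p
    rw [Algebra.adjoin_range_eq_range_aeval]
    exact ⟨p, rfl⟩
  have halg : ∀ p : MvPolynomial (Fin n) k,
      IsAlgebraic (Algebra.adjoin k (Set.range η)) (aeval η p) := by
    intro p
    exact isAlgebraic_algebraMap (⟨aeval η p, hmem p⟩ : Algebra.adjoin k (Set.range η))
  rw [ha, div_eq_mul_inv]
  exact (halg r).mul (halg s).inv

theorem pf_CTD : T_CTD := by
  intro k Ω _ _ _ S S' ξ hS hS' hrel h1 h2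
  set E := IntermediateField.adjoin k (Set.range ξ) with hE
  set η : Fin 4 → E := fun i => ⟨ξ i, IntermediateField.subset_adjoin k _ ⟨i, rfl⟩⟩ with hη
  have hηv : ∀ i, (η i : Ω) = ξ i := fun i => rfl
  have := alg_adjoin ξ η hηv
  obtain ⟨t, ht, hB⟩ := exists_isTranscendenceBasis_subset (R := k) (A := E) (Set.range η)
  rw [← hB.cardinalMk_eq_trdeg]
  by_contra hlt
  rw [not_le] at hlt
  have h3 : Cardinal.mk (Fin 3) ≤ Cardinal.mk t := by
    have h4 := Order.succ_le_of_lt hlt
    have h5 : Order.succ (2 : Cardinal.{0}) = 3 := by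
      have := Cardinal.succ_natCast 2
      norm_num at this
      exact this
    rw [h5] at h4
    simpa using h4
  obtain ⟨em⟩ := (Cardinal.le_def _ _).1 h3
  have hg : ∀ x : t, ∃ i, η i = x := fun x => ht x.2
  choose g hg using hg
  have hginj : Function.Injective g := by
    intro x y hxy
    apply Subtype.ext
    rw [← hg x, ← hg y, hxy]
  refine core S S' ξ hS hrel h1 h2 (fun i => g (em i)) (hginj.comp em.injective) ?_
  have h6 : AlgebraicIndependent k (fun i : Fin 3 => ((em i : t) : E)) :=
    hB.1.comp em em.injective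
  have h7 : AlgebraicIndependent k (fun i : Fin 3 => (((em i : t) : E) : Ω)) :=
    h6.map' (f := IntermediateField.val E) (IntermediateField.val E).injective
  have h8 : (fun i : Fin 3 => ξ (g (em i))) = fun i : Fin 3 => (((em i : t) : E) : Ω) := by
    funext i
    rw [← hηv, hg]
  rw [h8]
  exact h7

end Pool.Agent.H51.TD
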