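import Pool.Agent.H18.TD.Targets

set_option autoImplicit false

open Polynomial Module

namespace Pool.Agent.H18.TD

open Pool.Agent.H72.HR (pt dv box Grp Lie Std kap TT)

/-- restriction to the additive variables -/
noncomputable def zr1_phi (r l : ℕ) : (Fin r ⊕ Fin l → ℂ) →ₗ[ℂ] (Fin r → ℂ) :=
  LinearMap.funLeft ℂ ℂ Sum.inl

theorem zr1_phi_om {r l : ℕ} (X : Matrix (Fin l) (Fin r) ℂ) (i : Fin r) :
    zr1_phi r l (om X i) = Pi.single i 1 := by
  funext j
  simp [zr1_phi, om, LinearMap.funLeft_apply]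

theorem zr1_li {r l : ℕ} (X : Matrix (Fin l) (Fin r) ℂ) : LinearIndependent ℂ (om X) := by
  apply LinearIndependent.of_comp (zr1_phi r l)
  have h : (zr1_phi r l) ∘ (om X) = fun i => (Pi.single i (1 : ℂ) : Fin r → ℂ) := by
    funext i
    exact zr1_phi_om X i
  rw [h]
  have := (Pi.basisFun ℂ (Fin r)).linearIndependent
  have h2 : (fun i => (Pi.single i (1 : ℂ) : Fin r → ℂ)) = (Pi.basisFun ℂ (Fin r)) := by
    funext i
    simp
  rw [h2]
  exact this

/-- an element of the span is determined by its restriction -/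
theorem zr1_zero {r l : ℕ} (X : Matrix (Fin l) (Fin r) ℂ) (g : Fin r ⊕ Fin l → ℂ)
    (hg : g ∈ Submodule.span ℂ (Set.range (om X))) (h0 : ∀ i : Fin r, g (Sum.inl i) = 0) :
    g = 0 := by
  rw [Submodule.mem_span_range_iff_exists_fun] at hg
  obtain ⟨c, hc⟩ := hg
  have hci : ∀ i, c i = 0 := by
    intro i
    have h1 := congrArg (zr1_phi r l) hc
    rw [map_sum] at h1
    have h2 := congrFun h1 i
    simp only [map_smul, zr1_phi_om, Finset.sum_apply, Pi.smul_apply, Pi.single_apply,
      smul_eq_mul, mul_ite, mul_one, mul_zero, Finset.sum_ite_eq, Finset.mem_univ, if_true] at h2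
    rw [h2]
    exact h0 i
  rw [← hc]
  simp [hci]

/-- setting the multiplicative variables to zero -/
noncomputable def zr1_psi (r l : ℕ) : (Fin r ⊕ Fin l → ℂ) →ₗ[ℂ] (Fin r ⊕ Fin l → ℂ) where
  toFun g := fun i => if (kap : Fin r ⊕ Fin l → Bool) i then 0 else g i
  map_add' a b := by
    funext i
    by_cases h : (kap : Fin r ⊕ Fin l → Bool) i <;> simp [h]
  map_smul' c a := by
    funext i
    by_cases h : (kap : Fin r ⊕ Fin l → Bool) i <;> simp [h]

theorem pf_ZR1 : T_ZR1 := by
  intro r l T0 T1 X L Θ hS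
  refine ⟨?_, ?_⟩
  · rw [finrank_span_eq_card (zr1_li X)]
    simp
  · set W := Submodule.span ℂ (Set.range (om X)) with hW
    have hmem : ∀ g : (W ⊓ Lie kap L Θ : Submodule ℂ (Fin r ⊕ Fin l → ℂ)),
        zr1_psi r l (g : Fin r ⊕ Fin l → ℂ) ∈ L := fun g => (g.2.2).1
    let f : (W ⊓ Lie kap L Θ : Submodule ℂ (Fin r ⊕ Fin l → ℂ)) →ₗ[ℂ] L :=
      LinearMap.codRestrict L ((zr1_psi r l).comp
        (W ⊓ Lie kap L Θ : Submodule ℂ (Fin r ⊕ Fin l → ℂ)).subtype) (fun g => hmem g)
    have hinj : Function.Injective f := by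
      rw [injective_iff_map_eq_zero]
      intro g hg
      have h1 : zr1_psi r l (g : Fin r ⊕ Fin l → ℂ) = 0 := by
        have := congrArg (fun z : L => (z : Fin r ⊕ Fin l → ℂ)) hg
        exact this
      have h2 : (g : Fin r ⊕ Fin l → ℂ) = 0 := by
        apply zr1_zero X _ g.2.1
        intro i
        have h3 := congrFun h1 (Sum.inl i)
        simpa [zr1_psi, kap] using h3
      exact Subtype.ext h2
    exact LinearMap.finrank_le_finrank_of_injective hinj

end Pool.Agent.H18.TD
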